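import Pool.Agent.H265R3.DF.Rigid3

/-!
# Q2: Ent-maximizing flows which are face-valued on a part of the region only

The region is a convex prism `R`, and `F = conv(e₁, e₂, e₃)`.

First example: `g1` (`e₁` on one part, `-e₂` on the other part) is an asymptotic flow, and it is
the only asymptotic flow with its trace. So it is Ent-maximizing, whatever the function `ent` is.

Second example: `g0` equals `(1/3, 1/3, 1/3)` (relative interior of `F`) where `x₁ + x₂ + x₃ < 0`, and
`e₁` or `-e₂` elsewhere. It is an asymptotic flow, and it maximizes `Ent` among all asymptotic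
flows with the same trace, for every continuous concave function `ent` on the octahedron. Every
asymptotic flow with this trace has both `A_F` and its complement of positive measure.
-/

namespace Pool.Agent.Results.MP_f32666_pr.PartlyFaceValued

open MeasureTheory Pool.Agent.H265R3.DF

theorem result :
    (IsCompact prism ∧ Convex ℝ prism ∧ closure (interior prism) = prism ∧
      IsConnected (interior prism)) ∧
    (IsAF prism g1 ∧
      (∀ h : E3 → E3, IsAF prism h → SameTrace prism h g1 → h =ᵐ[volume.restrict prism] g1) ∧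
      (∀ ent : E3 → ℝ, IsEntMax ent prism g1) ∧
      0 < volume {x | x ∈ prism ∧ g1 x ∈ faceF} ∧ 0 < volume {x | x ∈ prism ∧ g1 x ∉ faceF}) ∧
    (IsAF prism g0 ∧
      (∀ ent : E3 → ℝ, ContinuousOn ent Oct → ConcaveOn ℝ Oct ent → IsEntMax ent prism g0) ∧
      0 < volume {x | x ∈ prism ∧ g0 x ∈ faceF} ∧ 0 < volume {x | x ∈ prism ∧ g0 x ∉ faceF} ∧
      0 < volume {x | x ∈ prism ∧ g0 x = fun _ => 1 / 3} ∧
      ∀ h : E3 → E3, IsAF prism h → SameTrace prism h g0 →
        0 < volume {x | x ∈ prism ∧ h x ∈ faceF} ∧ 0 < volume {x | x ∈ prism ∧ h x ∉ faceF}) := by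
  refine ⟨⟨isCompact_prism, convex_prism, closure_interior_prism, isConnected_interior_prism⟩,
    ⟨isAF_g1, fun h hh ht => rigid1 hh.adm ht, entMax_g1, vol1_low, vol1_high⟩,
    ⟨isAF_g0, ?_, all_low isAF_g0 (fun _ _ => rfl), all_high isAF_g0 (fun _ _ => rfl), vol_third,
      fun h hh ht => ⟨all_low hh ht, all_high hh ht⟩⟩⟩
  intro ent hc hconc
  exact ⟨isAF_g0, fun h hh ht => ent_le hc hconc hh.adm ht⟩

end Pool.Agent.Results.MP_f32666_pr.PartlyFaceValued
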